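import Mathlib
import Pool.Agent.Work.MP_5fe04c_ag.Defs
import Pool.Agent.Work.MP_5fe04c_ag.Final

/-!
# A reducible family of codimension three complete intersections

For `T = (1,3,4,4,3,2,1)` (length `18`) the family `CI(T)` of complete intersection ideals
of `k[[x,y,z]]` with Hilbert function `T` is nonempty and has at least two irreducible components,
for every field `k` (in particular for every algebraically closed field).

The two ideals `(xy, z^2, x^4 + y^5)` and `(xy, y^2 - x^4, z^3)` lie in disjoint open subsets
of `CI(T)`.  The first open set is given by the condition that the linear forms multiply
the degree two part of the ideal of the tangent cone onto a six dimensional space (of cubic forms);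
the second one by the condition that the multiplication from `R_2 x R_4` to the quotient of
`R_6` by the degree six part of the tangent cone ideal has rank at least three.
-/

namespace Pool.Agent.Results.MP_5fe04c_ag.ReducibleCI

open Pool.Agent.Work.MP_5fe04c_ag

theorem result (k : Type*) [Field k] :
    T0 1 = 3 ∧ (CI k 18 T0).Nonempty ∧ (irreducibleComponents ↥(CI k 18 T0)).Nontrivial :=
  ⟨rfl, ⟨pt1 k, pt1_mem k⟩, main k⟩

end Pool.Agent.Results.MP_5fe04c_ag.ReducibleCI
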